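import Pool.Agent.P8H76.FR.Add

/-!
# A primitive element generates an open subscheme (for package FR/HYP of helper48)
-/

set_option autoImplicit false

namespace Pool.Agent.P8H76.FR

open Polynomial

theorem gen_surj {R D E L : Type} [CommRing R] [IsDomain R] [CommRing D] [IsDomain D] [Algebra R D]
    [Algebra.FiniteType R D] [Algebra.IsAlgebraic R D] [Field E] [Field L] [Algebra E L] [FiniteDimensional E L]
    [Algebra.IsSeparable E L] [Algebra R E] [IsFractionRing R E] [Algebra R L] [IsScalarTower R E L] [Algebra D L]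
    [IsFractionRing D L] [IsScalarTower R D L] (hinj : Function.Injective (algebraMap R D)) {θ : L}
    (hθ : IntermediateField.adjoin E {θ} = ⊤) :
    ∃ g : R, g ≠ 0 ∧ ∀ h : R, h ≠ 0 → g ∣ h → ∃ θ' : Localization.Away (algebraMap R D h),
      (∀ P : R[X], aeval θ P = 0 → eval₂ ((Localization.awayMap (algebraMap R D) h).comp
        (algebraMap R (Localization.Away h))) θ' P = 0) ∧
      Function.Surjective (eval₂RingHom (Localization.awayMap (algebraMap R D) h) θ') := by
  classical
  -- a denominator of `θ`
  obtain ⟨⟨u, v⟩, huv⟩ := IsLocalization.surj (nonZeroDivisors D) θ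
  obtain ⟨c, hc0, q, hcq⟩ := (Algebra.IsAlgebraic.isAlgebraic (R := R) (v : D)).exists_nonzero_dvd v.2
  have hθc : θ * algebraMap R L c = algebraMap D L (u * q) := by
    have h1 : θ * algebraMap D L v = algebraMap D L u := huv
    rw [IsScalarTower.algebraMap_apply R D L, hcq, map_mul, ← mul_assoc, h1, map_mul]
  obtain ⟨s, hs⟩ := (inferInstance : Algebra.FiniteType R D).out
  choose r hr0 hr using fun t : D => mult_mem (E := E) (R := R) hθ (algebraMap D L t)
  refine ⟨c * ∏ t ∈ s, r t, mul_ne_zero hc0 (Finset.prod_ne_zero_iff.2 fun t _ => hr0 t), fun h hh0 hdvd => ?_⟩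
  have hch : c ∣ h := (dvd_mul_right c _).trans hdvd
  have hrh : ∀ t ∈ s, r t ∣ h := fun t ht => ((Finset.dvd_prod_of_mem r ht).trans (dvd_mul_left _ c)).trans hdvd
  have hhD : algebraMap R D h ≠ 0 := (map_ne_zero_iff _ hinj).2 hh0
  let T := Localization.Away (algebraMap R D h)
  have hpow : Submonoid.powers (algebraMap R D h) ≤ nonZeroDivisors D := powers_le_nonZeroDivisors_of_noZeroDivisors hhD
  have hTdom : IsDomain T := IsLocalization.isDomain_localization hpow
  have hunit : IsUnit (algebraMap D L (algebraMap R D h)) :=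
    isUnit_iff_ne_zero.mpr ((map_ne_zero_iff _ (IsFractionRing.injective D L)).mpr hhD)
  let _ : Algebra T L := (IsLocalization.Away.lift (S := T) (algebraMap R D h) hunit).toAlgebra
  have hTB : IsScalarTower D T L := IsScalarTower.of_algebraMap_eq fun y => by
    change _ = IsLocalization.Away.lift (S := T) (algebraMap R D h) hunit (algebraMap D T y)
    rw [IsLocalization.Away.lift_eq]
  have hFD : IsFractionRing T L :=
    IsFractionRing.isFractionRing_of_isDomain_of_isLocalization (Submonoid.powers (algebraMap R D h)) T L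
  have hTL : Function.Injective (algebraMap T L) := IsFractionRing.injective T L
  let ψ : Localization.Away h →+* T := Localization.awayMap (algebraMap R D) h
  have hψ : ∀ a : R, ψ (algebraMap R _ a) = algebraMap D T (algebraMap R D a) := fun a => by
    change Localization.awayMap (algebraMap R D) h _ = _
    rw [Localization.awayMap, IsLocalization.Away.map, IsLocalization.map_eq]
  have hun : ∀ a : R, a ∣ h → IsUnit (algebraMap R (Localization.Away h) a) := fun a ha =>
    isUnit_of_dvd_unit (map_dvd _ ha) (IsLocalization.Away.algebraMap_isUnit h)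
  obtain ⟨c', hc'⟩ := (hun c hch)
  let θ' : T := algebraMap D T (u * q) * ψ ((c'⁻¹ : (Localization.Away h)ˣ) : Localization.Away h)
  have hψL : ∀ a : R, algebraMap T L (ψ (algebraMap R _ a)) = algebraMap R L a := fun a => by
    rw [hψ, ← IsScalarTower.algebraMap_apply D T L, ← IsScalarTower.algebraMap_apply R D L]
  have hcL : algebraMap R L c ≠ 0 := by
    rw [IsScalarTower.algebraMap_apply R D L]
    exact (map_ne_zero_iff _ (IsFractionRing.injective D L)).2 ((map_ne_zero_iff _ hinj).2 hc0)
  have hθ' : algebraMap T L θ' = θ := by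
    apply mul_right_cancel₀ hcL
    rw [hθc, ← hψL c, ← map_mul, IsScalarTower.algebraMap_apply D T L]
    congr 1
    rw [← hc', mul_assoc, ← map_mul, Units.inv_mul, map_one, mul_one]
  have hev : ∀ P : R[X], algebraMap T L (eval₂ (ψ.comp (algebraMap R _)) θ' P) = aeval θ P := fun P => by
    rw [hom_eval₂, hθ', aeval_def]
    congr 1
    ext a
    exact hψL a
  refine ⟨θ', fun P hP => ?_, ?_⟩
  · apply hTL
    rw [hev, hP, map_zero]
  · -- surjectivity
    rw [← RingHom.range_eq_top]
    set S0 := (eval₂RingHom ψ θ').range with hS0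
    have hψS : ∀ x, ψ x ∈ S0 := fun x => ⟨C x, by rw [coe_eval₂RingHom, eval₂_C]⟩
    have hθS : θ' ∈ S0 := ⟨X, by rw [coe_eval₂RingHom, eval₂_X]⟩
    have hpoly : ∀ P : R[X], eval₂ (ψ.comp (algebraMap R _)) θ' P ∈ S0 := fun P => by
      refine ⟨P.map (algebraMap R _), ?_⟩
      rw [coe_eval₂RingHom, eval₂_map]
    have hD : ∀ y : D, algebraMap D T y ∈ S0 := by
      intro y
      have hy : y ∈ Algebra.adjoin R (s : Set D) := by rw [hs]; trivial
      induction hy using Algebra.adjoin_induction with
      | mem t ht =>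
        obtain ⟨w, hw⟩ := hun (r t) (hrh t ht)
        have h1 := hr t
        rw [Algebra.adjoin_singleton_eq_range_aeval] at h1
        obtain ⟨P, hP⟩ := h1
        have h2 : ψ (algebraMap R _ (r t)) * algebraMap D T t = eval₂ (ψ.comp (algebraMap R _)) θ' P := by
          apply hTL
          rw [hev, map_mul, hψL, ← IsScalarTower.algebraMap_apply D T L]
          rw [Algebra.smul_def] at hP
          exact hP.symm
        have h3 : algebraMap D T t = ψ ((w⁻¹ : (Localization.Away h)ˣ) : Localization.Away h) *
            eval₂ (ψ.comp (algebraMap R _)) θ' P := by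
          rw [← h2, ← hw, ← mul_assoc, ← map_mul, Units.inv_mul, map_one, one_mul]
        rw [h3]
        exact S0.mul_mem (hψS _) (hpoly P)
      | algebraMap a =>
        rw [← hψ]
        exact hψS _
      | add x y _ _ hx hy => rw [map_add]; exact S0.add_mem hx hy
      | mul x y _ _ hx hy => rw [map_mul]; exact S0.mul_mem hx hy
    rw [eq_top_iff]
    intro z _
    obtain ⟨⟨y, ⟨_, n, rfl⟩⟩, hy⟩ := IsLocalization.surj (Submonoid.powers (algebraMap R D h)) z
    obtain ⟨w, hw⟩ := hun h dvd_rfl
    have hy' : z * algebraMap D T (algebraMap R D h ^ n) = algebraMap D T y := hy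
    have h3 : z = ψ (((w⁻¹ : (Localization.Away h)ˣ) : Localization.Away h) ^ n) * algebraMap D T y := by
      rw [← hy', map_pow (algebraMap D T), ← hψ, ← hw, map_pow]
      have h4 : ψ ((w⁻¹ : (Localization.Away h)ˣ) : Localization.Away h) * ψ (w : Localization.Away h) = 1 := by
        rw [← map_mul, Units.inv_mul, map_one]
      calc z = (ψ ((w⁻¹ : (Localization.Away h)ˣ) : Localization.Away h) * ψ (w : Localization.Away h)) ^ n * z := by
            rw [h4, one_pow, one_mul]
        _ = _ := by rw [mul_pow]; ring
    rw [h3]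
    exact S0.mul_mem (hψS _) (hD y)

end Pool.Agent.P8H76.FR
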