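import Pool.Agent.P8H48.FR.Stm4
import Pool.Agent.P8H48.FR.Gen2
import Pool.Agent.P8H76.FR.Surj

/-!
# Package FR/HYP (for helper48): generic etaleness with a root of an additive polynomial as generator

The first part of the proof is the one of `Pool.Agent.P8H48.FR.gen`.
-/

set_option autoImplicit false

namespace Pool.Agent.P8H76.FR

open MvPolynomial Pool.Agent.P8H48.FR

theorem hyp : Pool.Agent.P8H48.FR.S_HYP := by
  intro hC _ _ p hp k _ _ _ B _ _ _ _ n hn
  classical
  obtain ⟨d, x, hd, hx, hsep⟩ := exists_sep k B n hn
  let L := FractionRing B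
  let R := MvPolynomial (Fin d) k
  -- common denominator
  obtain ⟨⟨f, hf⟩, hfx⟩ := IsLocalization.exist_integer_multiples_of_finite (nonZeroDivisors B) x
  choose a ha using hfx
  have hf0 : f ≠ 0 := nonZeroDivisors.ne_zero hf
  have hpow : Submonoid.powers f ≤ nonZeroDivisors B := powers_le_nonZeroDivisors_of_noZeroDivisors hf0
  let D := Localization.Away f
  have hDdom : IsDomain D := IsLocalization.isDomain_localization hpow
  have hunit : IsUnit (algebraMap B L f) :=
    isUnit_iff_ne_zero.mpr ((map_ne_zero_iff _ (IsFractionRing.injective B L)).mpr hf0)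
  let _ : Algebra D L := (IsLocalization.Away.lift (S := D) f hunit).toAlgebra
  have hTB : IsScalarTower B D L := IsScalarTower.of_algebraMap_eq fun y => by
    change _ = IsLocalization.Away.lift (S := D) f hunit (algebraMap B D y)
    rw [IsLocalization.Away.lift_eq]
  have hTk : IsScalarTower k D L := IsScalarTower.of_algebraMap_eq fun y => by
    rw [IsScalarTower.algebraMap_apply k B L, IsScalarTower.algebraMap_apply k B D,
      ← IsScalarTower.algebraMap_apply B D L]
  have hFD : IsFractionRing D L :=
    IsFractionRing.isFractionRing_of_isDomain_of_isLocalization (Submonoid.powers f) D L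
  have hftD : Algebra.FiniteType k D := Algebra.FiniteType.trans (S := B) inferInstance inferInstance
  -- the map from the polynomial ring
  let z : Fin d → D := fun i => IsLocalization.mk' D (a i) (⟨f, 1, pow_one f⟩ : Submonoid.powers f)
  have hz : ∀ i, algebraMap D L (z i) = x i := by
    intro i
    have h1 : algebraMap D L (z i) * algebraMap B L f = algebraMap B L (a i) := by
      have h0 : z i * algebraMap B D f = algebraMap B D (a i) :=
        IsLocalization.mk'_spec D (a i) (⟨f, 1, pow_one f⟩ : Submonoid.powers f)
      rw [IsScalarTower.algebraMap_apply B D L f, ← map_mul, h0,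
        ← IsScalarTower.algebraMap_apply B D L]
    have h2 : x i * algebraMap B L f = algebraMap B L (a i) := by
      rw [ha i, Algebra.smul_def, mul_comm]
    exact hunit.mul_right_cancel (h1.trans h2.symm)
  let φ : R →ₐ[k] D := aeval z
  let _ : Algebra R D := φ.toRingHom.toAlgebra
  have hTRD : IsScalarTower k R D := IsScalarTower.of_algebraMap_eq fun y => (φ.commutes y).symm
  let E := IntermediateField.adjoin k (Set.range x)
  let _ : Algebra R E := (hx.aevalEquivField.toRingHom.comp (algebraMap R (FractionRing R))).toAlgebra
  let _ : Algebra R L := ((algebraMap E L).comp (algebraMap R E)).toAlgebra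
  have hTREL : IsScalarTower R E L := IsScalarTower.of_algebraMap_eq fun _ => rfl
  have hRL : ∀ q : R, algebraMap R L q = aeval x q := fun q => hx.aevalEquivField_algebraMap_apply_coe q
  have hRDL : ∀ q : R, algebraMap D L (φ q) = aeval x q := by
    intro q
    have h3 : ((IsScalarTower.toAlgHom k D L).comp φ) = aeval x := by
      apply MvPolynomial.algHom_ext
      intro i
      rw [AlgHom.comp_apply, aeval_X, aeval_X]
      exact hz i
    exact DFunLike.congr_fun h3 q
  have hTRDL : IsScalarTower R D L := IsScalarTower.of_algebraMap_eq fun q => by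
    rw [hRL]
    exact (hRDL q).symm
  have hRinj : Function.Injective (algebraMap R L) := by
    intro u v huv
    rw [hRL, hRL] at huv
    exact hx huv
  have hinj : Function.Injective (algebraMap R D) := by
    intro u v huv
    apply hRinj
    rw [IsScalarTower.algebraMap_apply R D L, IsScalarTower.algebraMap_apply R D L, huv]
  have hFE : IsFractionRing R E :=
    IsLocalization.isLocalization_of_algEquiv (nonZeroDivisors R)
      (AlgEquiv.ofRingEquiv (f := hx.aevalEquivField.toRingEquiv) fun _ => rfl :
        FractionRing R ≃ₐ[R] E)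
  have halgL : Algebra.IsAlgebraic R L :=
    (IsFractionRing.comap_isAlgebraic_iff (A := R) (K := E) (C := L)).mpr inferInstance
  have hDL : Function.Injective (algebraMap D L) := IsFractionRing.injective D L
  have halg : Algebra.IsAlgebraic R D := by
    have : FaithfulSMul D L := (faithfulSMul_iff_algebraMap_injective _ _).mpr hDL
    exact Algebra.IsAlgebraic.tower_bot_of_injective (R := R) (S := D) (A := L) hDL
  have hft : Algebra.FiniteType R D := Algebra.FiniteType.of_restrictScalars_finiteType k R D
  have het1 : Algebra.FormallyEtale R E := Algebra.FormallyEtale.of_isLocalization (nonZeroDivisors R)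
  have het2 : Algebra.FormallyEtale E L := Algebra.FormallyEtale.of_isSeparable E L
  have het3 : Algebra.FormallyEtale R L := Algebra.FormallyEtale.comp R E L
  have het4 : Algebra.FormallyEtale R (FractionRing D) :=
    Algebra.FormallyEtale.of_equiv
      ((IsLocalization.algEquiv (nonZeroDivisors D) L (FractionRing D)).restrictScalars R)
  have hchE : CharP E p := charP_of_injective_algebraMap (algebraMap k E).injective p
  have : Algebra.EssFiniteType B L := .of_isLocalization _ (nonZeroDivisors B)
  have : Algebra.EssFiniteType k L := .comp _ B _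
  have hessE : Algebra.EssFiniteType E L := .of_comp k E L
  have hfinE : FiniteDimensional E L := Algebra.FormallyUnramified.finite_of_free E L
  obtain ⟨g1, hg10, hg1⟩ := gen_ffe (A := R) (D := D) hinj het4
  obtain ⟨θ0, hθ0⟩ := Field.exists_primitive_element E L
  obtain ⟨m, b, c, hc0, hb0, hbm, hrel⟩ := exists_rel_int (R := R) (E := E) p θ0
  have hθ : IntermediateField.adjoin E {c • θ0} = ⊤ := by
    rw [eq_top_iff, ← hθ0, IntermediateField.adjoin_simple_le_iff]
    have hcE : algebraMap R E c ≠ 0 := (map_ne_zero_iff _ (IsFractionRing.injective R E)).2 hc0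
    have h1 : θ0 = (algebraMap R E c)⁻¹ • (c • θ0) := by
      rw [← IsScalarTower.algebraMap_smul E c θ0, smul_smul, inv_mul_cancel₀ hcE, one_smul]
    have h2 : c • θ0 ∈ IntermediateField.adjoin E {c • θ0} := IntermediateField.mem_adjoin_simple_self E _
    have h3 := (IntermediateField.adjoin E {c • θ0}).smul_mem h2 (x := (algebraMap R E c)⁻¹)
    rw [← h1] at h3
    exact h3
  obtain ⟨g2, hg20, hg2⟩ := gen_surj (R := R) (D := D) (E := E) (L := L) hinj hθ
  let h : R := b 0 * (g1 * g2)
  have hh0 : h ≠ 0 := mul_ne_zero hb0 (mul_ne_zero hg10 hg20)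
  have hdv0 : b 0 ∣ h := dvd_mul_right _ _
  have hdv1 : g1 ∣ h := (dvd_mul_right g1 g2).trans (dvd_mul_left _ _)
  have hdv2 : g2 ∣ h := (dvd_mul_left g2 g1).trans (dvd_mul_left _ _)
  have h5 : algebraMap R D h ≠ 0 := (map_ne_zero_iff _ hinj).mpr hh0
  obtain ⟨w, hw0, hw⟩ := away_away f hf0 (algebraMap R D h) h5
  let e : Localization.Away w ≃ₐ[B] Localization.Away (algebraMap R D h) :=
    IsLocalization.algEquiv (Submonoid.powers w) (Localization.Away w)
      (Localization.Away (algebraMap R D h))
  have h6 := hC.1 _ _ _ _ _ (hg1 h hh0 hdv1) (hC.2 _ _ e.symm.toRingEquiv)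
  obtain ⟨θ', hθ1, hθ2⟩ := hg2 h hh0 hdv2
  have h10 : ∀ c : k, e.symm (Localization.awayMap (algebraMap R D) h (algebraMap k (Localization.Away h) c)) =
      algebraMap k (Localization.Away w) c := by
    intro c
    have h7 : Localization.awayMap (algebraMap R D) h (algebraMap k (Localization.Away h) c) =
        algebraMap k (Localization.Away (algebraMap R D h)) c := by
      rw [IsScalarTower.algebraMap_apply k R (Localization.Away h), Localization.awayMap,
        IsLocalization.Away.map, IsLocalization.map_eq, ← IsScalarTower.algebraMap_apply k R D,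
        ← IsScalarTower.algebraMap_apply k D]
    rw [h7]
    have h8 : algebraMap k (Localization.Away (algebraMap R D h)) c =
        algebraMap B (Localization.Away (algebraMap R D h)) (algebraMap k B c) := by
      rw [← IsScalarTower.algebraMap_apply k B]
    rw [h8, e.symm.commutes, ← IsScalarTower.algebraMap_apply]
  refine ⟨d, m, b, hd, hbm, h, hh0, hdv0, w, hw0,
    ⟨e.symm.toRingEquiv.toRingHom.comp (Localization.awayMap (algebraMap R D) h), h10⟩, h6, e.symm θ', ?_, ?_⟩
  · have h11 : Polynomial.aeval (c • θ0) (addPol p b) = 0 := by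
      rw [addPol, map_sum, ← hrel]
      refine Finset.sum_congr rfl fun i _ => ?_
      rw [map_mul, Polynomial.aeval_C, map_pow, Polynomial.aeval_X]
    have h12 := congrArg e.symm.toRingEquiv.toRingHom (hθ1 (addPol p b) h11)
    rw [map_zero, Polynomial.hom_eval₂] at h12
    exact h12
  · intro z
    obtain ⟨P, hP⟩ := hθ2 (e z)
    refine ⟨P, ?_⟩
    rw [Polynomial.coe_eval₂RingHom] at hP
    have h12 := congrArg e.symm.toRingEquiv.toRingHom hP
    rw [Polynomial.hom_eval₂] at h12
    rw [Polynomial.coe_eval₂RingHom]
    refine Eq.trans h12 ?_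
    exact e.symm_apply_apply z

end Pool.Agent.P8H76.FR
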