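import Mathlib

/-!
# Roots of additive polynomials generate separable extensions (for package FR/HYP of helper48)
-/

set_option autoImplicit false

namespace Pool.Agent.P8H76.FR

open Polynomial

section

variable {E L : Type*} [Field E] [Field L] [Algebra E L] [FiniteDimensional E L] [Algebra.IsSeparable E L]

/-- a relation between the iterated `p`-th powers of an element, first and last coefficient not zero -/
theorem exists_rel (p : ℕ) [hp : Fact p.Prime] [CharP E p] (θ : L) :
    ∃ (m : ℕ) (a : Fin (m + 1) → E), a 0 ≠ 0 ∧ a (Fin.last m) ≠ 0 ∧ ∑ i, a i • θ ^ p ^ (i : ℕ) = 0 := by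
  classical
  have hE : ExpChar E p := ExpChar.prime hp.out
  have hL : CharP L p := charP_of_injective_algebraMap (algebraMap E L).injective p
  have hex : ∃ m : ℕ, ¬ LinearIndependent E (fun i : Fin (m + 1) => θ ^ p ^ (i : ℕ)) := by
    refine ⟨Module.finrank E L, fun h => ?_⟩
    have h1 := h.fintype_card_le_finrank
    rw [Fintype.card_fin] at h1
    omega
  have hmin := Nat.find_spec hex
  set m := Nat.find hex with hm
  obtain ⟨a, ha, i0, hi0⟩ := Fintype.not_linearIndependent_iff.1 hmin
  have hlt : ∀ m' < m, LinearIndependent E (fun i : Fin (m' + 1) => θ ^ p ^ (i : ℕ)) := fun m' hm' => by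
    by_contra h
    exact Nat.find_min hex hm' h
  refine ⟨m, a, ?_, ?_, ha⟩
  · intro h0
    rcases Nat.eq_zero_or_pos m with h | h
    · apply hi0
      have : i0 = 0 := by
        apply Fin.ext
        have := i0.2
        simp only [Fin.val_zero]
        omega
      rw [this, h0]
    · obtain ⟨m', hm'⟩ : ∃ m', m = m' + 1 := ⟨m - 1, by omega⟩
      have h1 := (hlt m' (by omega)).map_pow_expChar_pow_of_isSeparable p 1
      clear_value m
      subst hm'
      rw [Fin.sum_univ_succ, h0, zero_smul, zero_add] at ha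
      have h2 := Fintype.linearIndependent_iff.1 h1 (fun i => a i.succ) (by
        rw [← ha]
        refine Finset.sum_congr rfl fun i _ => ?_
        rw [pow_one, ← pow_mul, Fin.val_succ, pow_succ])
      apply hi0
      rcases Fin.eq_zero_or_eq_succ i0 with h3 | ⟨j, h3⟩
      · rw [h3, h0]
      · rw [h3]
        exact h2 j
  · intro h0
    rcases Nat.eq_zero_or_pos m with h | h
    · apply hi0
      have : i0 = Fin.last m := by
        apply Fin.ext
        have := i0.2
        simp only [Fin.val_last]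
        omega
      rw [this, h0]
    · obtain ⟨m', hm'⟩ : ∃ m', m = m' + 1 := ⟨m - 1, by omega⟩
      have h1 := hlt m' (by omega)
      clear_value m
      subst hm'
      rw [Fin.sum_univ_castSucc, h0, zero_smul, add_zero] at ha
      have h2 := Fintype.linearIndependent_iff.1 h1 (fun i => a i.castSucc) ha
      apply hi0
      rcases Fin.eq_castSucc_or_eq_last i0 with ⟨j, h3⟩ | h3
      · rw [h3]
        exact h2 j
      · rw [h3, h0]

variable {R : Type*} [CommRing R] [IsDomain R] [Algebra R E] [IsFractionRing R E] [Algebra R L]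
  [IsScalarTower R E L]

/-- a monic relation with coefficients in `R`, for a multiple of the element -/
theorem exists_rel_int (p : ℕ) [hp : Fact p.Prime] [CharP E p] (θ : L) :
    ∃ (m : ℕ) (a : Fin (m + 1) → R) (c : R), c ≠ 0 ∧ a 0 ≠ 0 ∧ a (Fin.last m) = 1 ∧
      ∑ i, algebraMap R L (a i) * (c • θ) ^ p ^ (i : ℕ) = 0 := by
  classical
  obtain ⟨m, a, ha0, ham, ha⟩ := exists_rel (E := E) p θ
  obtain ⟨⟨d, hd⟩, hda⟩ := IsLocalization.exist_integer_multiples_of_finite (nonZeroDivisors R) a
  choose b hb using hda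
  have hd0 : d ≠ 0 := nonZeroDivisors.ne_zero hd
  have hdE : algebraMap R E d ≠ 0 := (map_ne_zero_iff _ (IsFractionRing.injective R E)).2 hd0
  have hb' : ∀ i, algebraMap R E (b i) = algebraMap R E d * a i := fun i => by
    rw [hb i, Algebra.smul_def]
  have hne : ∀ i, a i ≠ 0 → b i ≠ 0 := fun i hi h => by
    have := hb' i
    rw [h, map_zero] at this
    exact mul_ne_zero hdE hi this.symm
  have hrel : ∑ i, algebraMap R L (b i) * θ ^ p ^ (i : ℕ) = 0 := by
    have h1 : ∑ i, algebraMap R L (b i) * θ ^ p ^ (i : ℕ) = algebraMap R L d * ∑ i, a i • θ ^ p ^ (i : ℕ) := by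
      rw [Finset.mul_sum]
      refine Finset.sum_congr rfl fun i _ => ?_
      rw [IsScalarTower.algebraMap_apply R E L, hb', map_mul, ← IsScalarTower.algebraMap_apply R E L,
        Algebra.smul_def, mul_assoc]
    rw [h1, ha, mul_zero]
  let c := b (Fin.last m)
  have hc0 : c ≠ 0 := hne _ ham
  refine ⟨m, fun i => if i = Fin.last m then 1 else b i * c ^ (p ^ m - 1 - p ^ (i : ℕ)), c, hc0, ?_, ?_, ?_⟩
  · show (if _ then _ else _) ≠ (0 : R)
    split_ifs
    · exact one_ne_zero
    · exact mul_ne_zero (hne _ ha0) (pow_ne_zero _ hc0)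
  · simp
  · have h1 : ∀ i : Fin (m + 1), algebraMap R L (if i = Fin.last m then 1 else b i * c ^ (p ^ m - 1 - p ^ (i : ℕ))) *
        (c • θ) ^ p ^ (i : ℕ) = algebraMap R L c ^ (p ^ m - 1) * (algebraMap R L (b i) * θ ^ p ^ (i : ℕ)) := by
      intro i
      rw [Algebra.smul_def, mul_pow]
      have hpm : 1 ≤ p ^ m := Nat.one_le_pow _ _ hp.out.pos
      split_ifs with hi
      · rw [map_one, one_mul, hi, Fin.val_last]
        show _ = _ * (algebraMap R L c * _)
        rw [← mul_assoc, ← pow_succ, Nat.sub_add_cancel hpm]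
      · have h2 : p ^ (i : ℕ) ≤ p ^ m - 1 := by
          have h3 : (i : ℕ) < m := by
            have h4 := i.2
            have h5 : (i : ℕ) ≠ m := fun h => hi (Fin.ext (by rw [h, Fin.val_last]))
            omega
          have h4 : p ^ (i : ℕ) < p ^ m := Nat.pow_lt_pow_right hp.out.one_lt h3
          omega
        rw [map_mul, map_pow]
        have h3 : algebraMap R L c ^ (p ^ m - 1) = algebraMap R L c ^ (p ^ m - 1 - p ^ (i : ℕ)) *
            algebraMap R L c ^ p ^ (i : ℕ) := by
          rw [← pow_add, Nat.sub_add_cancel h2]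
        rw [h3]
        ring
    rw [Finset.sum_congr rfl fun i _ => h1 i, ← Finset.mul_sum, hrel, mul_zero]

/-- up to factors in `R` every element is in `R[θ]` -/
theorem mult_mem {θ : L} (hθ : IntermediateField.adjoin E {θ} = ⊤) (y : L) :
    ∃ r : R, r ≠ 0 ∧ r • y ∈ Algebra.adjoin R {θ} := by
  have hy : y ∈ Algebra.adjoin E {θ} := by
    have h1 : (IntermediateField.adjoin E {θ}).toSubalgebra = Algebra.adjoin E {θ} :=
      IntermediateField.adjoin_simple_toSubalgebra_of_isAlgebraic (Algebra.IsAlgebraic.isAlgebraic θ)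
    rw [← h1, hθ]
    trivial
  induction hy using Algebra.adjoin_induction with
  | mem x hx => exact ⟨1, one_ne_zero, by rw [one_smul]; exact Algebra.subset_adjoin hx⟩
  | algebraMap e =>
    obtain ⟨⟨a, s⟩, hs⟩ := IsLocalization.surj (nonZeroDivisors R) e
    refine ⟨s, nonZeroDivisors.ne_zero s.2, ?_⟩
    have h1 : (s : R) • algebraMap E L e = algebraMap R L a := by
      rw [Algebra.smul_def, IsScalarTower.algebraMap_apply R E L, ← map_mul, mul_comm]
      have h2 : e * algebraMap R E s = algebraMap R E a := hs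
      rw [h2, ← IsScalarTower.algebraMap_apply R E L]
    rw [h1]
    exact Subalgebra.algebraMap_mem _ _
  | add x y _ _ hx hy =>
    obtain ⟨r, hr, hx⟩ := hx
    obtain ⟨s, hs, hy⟩ := hy
    refine ⟨r * s, mul_ne_zero hr hs, ?_⟩
    have h3 : (r * s) • (x + y) = s • (r • x) + r • (s • y) := by
      rw [smul_add, smul_smul, smul_smul, mul_comm s r]
    rw [h3]
    exact Subalgebra.add_mem _ (Subalgebra.smul_mem _ hx _) (Subalgebra.smul_mem _ hy _)
  | mul x y _ _ hx hy =>
    obtain ⟨r, hr, hx⟩ := hx
    obtain ⟨s, hs, hy⟩ := hy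
    refine ⟨r * s, mul_ne_zero hr hs, ?_⟩
    have h3 : (r * s) • (x * y) = (r • x) * (s • y) := by rw [smul_mul_smul_comm]
    rw [h3]
    exact Subalgebra.mul_mem _ hx hy

end

end Pool.Agent.P8H76.FR
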